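import Pool.Agent.H45.Lib.S8.H306R2.RZ.Defs5
import Pool.Agent.H45.Lib.S8.H268R2.RZ_HT

/-!
Project RZ (MP_0016c7_nt), fifth wave, task PO: Poisson summation for `m ↦ ψ(m) (m|κ)`.
-/

set_option autoImplicit false

namespace Pool.Agent.H375R3.RZ5

open Finset Filter Topology MeasureTheory Pool.Agent.H306R2.RZ
open scoped FourierTransform

noncomputable section

/-! ### Poisson summation for periodic functions -/

/-- the Fourier transform -/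
def Ph (φ : ℝ → ℂ) (ξ : ℝ) : ℂ :=
  ∫ u : ℝ, φ u * Complex.exp (-(2 * Real.pi * Complex.I * (ξ : ℝ) * u))

/-- the scaled test function as a Schwartz function -/
def gS {φ : ℝ → ℂ} (h1 : ContDiff ℝ ((⊤ : ℕ∞) : WithTop ℕ∞) φ) (h2 : HasCompactSupport φ)
    {c : ℝ} (hc : 0 < c) : SchwartzMap ℝ ℂ :=
  HasCompactSupport.toSchwartzMap (f := fun t : ℝ => φ (c * t))
    (h2.comp_homeomorph (Homeomorph.mulLeft₀ c hc.ne'))
    (h1.comp (contDiff_const.mul contDiff_id))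

theorem gS_apply {φ : ℝ → ℂ} (h1 : ContDiff ℝ ((⊤ : ℕ∞) : WithTop ℕ∞) φ)
    (h2 : HasCompactSupport φ) {c : ℝ} (hc : 0 < c) (t : ℝ) : gS h1 h2 hc t = φ (c * t) := rfl

theorem fourier_gS {φ : ℝ → ℂ} (h1 : ContDiff ℝ ((⊤ : ℕ∞) : WithTop ℕ∞) φ)
    (h2 : HasCompactSupport φ) {c : ℝ} (hc : 0 < c) (k : ℝ) :
    𝓕 (gS h1 h2 hc : ℝ → ℂ) k = ((1 / c : ℝ) : ℂ) * Ph φ (k / c) := by
  rw [Real.fourier_real_eq_integral_exp_smul]
  have e1 : ∀ v : ℝ, Complex.exp (((-2 * Real.pi * v * k : ℝ) : ℂ) * Complex.I) • gS h1 h2 hc v =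
      (fun u : ℝ => φ u * Complex.exp (-(2 * Real.pi * Complex.I * ((k / c : ℝ) : ℝ) * u))) (c * v) := by
    intro v
    show Complex.exp (((-2 * Real.pi * v * k : ℝ) : ℂ) * Complex.I) • gS h1 h2 hc v =
      φ (c * v) * Complex.exp (-(2 * Real.pi * Complex.I * ((k / c : ℝ) : ℝ) * ((c * v : ℝ) : ℂ)))
    rw [gS_apply, smul_eq_mul, mul_comm]
    congr 2
    have hc' : (c : ℂ) ≠ 0 := by exact_mod_cast hc.ne'
    push_cast
    field_simp
  rw [integral_congr_ae (ae_of_all _ e1)]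
  have e4 := Measure.integral_comp_mul_left
    (fun u : ℝ => φ u * Complex.exp (-(2 * Real.pi * Complex.I * ((k / c : ℝ) : ℝ) * u))) c
  refine e4.trans ?_
  rw [abs_of_pos (inv_pos.2 hc), Complex.real_smul, one_div]
  rfl

theorem summable_gS {φ : ℝ → ℂ} (h1 : ContDiff ℝ ((⊤ : ℕ∞) : WithTop ℕ∞) φ)
    (h2 : HasCompactSupport φ) {c : ℝ} (hc : 0 < c) :
    Summable (fun k : ℤ => ‖Ph φ ((k : ℝ) / c)‖) := by
  have h3 : (fun x : ℝ => 𝓕 (gS h1 h2 hc : ℝ → ℂ) x) =O[cocompact ℝ] (fun x => |x| ^ (-2 : ℝ)) :=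
    (𝓕 (gS h1 h2 hc)).isBigO_cocompact_rpow (-2)
  have h4 : Summable (fun k : ℤ => ‖𝓕 (gS h1 h2 hc : ℝ → ℂ) (k : ℝ)‖) :=
    (summable_of_isBigO (Real.summable_abs_int_rpow one_lt_two)
      (h3.comp_tendsto Int.tendsto_coe_cofinite)).norm
  have h5 := h4.mul_left c
  refine h5.congr (fun k => ?_)
  rw [fourier_gS, norm_mul, Complex.norm_real, Real.norm_of_nonneg (by positivity), ← mul_assoc,
    mul_one_div_cancel hc.ne', one_mul]

/-- Poisson summation in one residue class -/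
theorem poisson1 {φ : ℝ → ℂ} (h1 : ContDiff ℝ ((⊤ : ℕ∞) : WithTop ℕ∞) φ)
    (h2 : HasCompactSupport φ) {c : ℝ} (hc : 0 < c) (x : ℝ) :
    ∑' t : ℤ, φ (c * (x + t)) = ((1 / c : ℝ) : ℂ) * ∑' k : ℤ, Ph φ ((k : ℝ) / c) *
      Complex.exp (2 * Real.pi * Complex.I * k * x) := by
  have h : ∑' n : ℤ, (gS h1 h2 hc) (x + n) = ∑' n : ℤ, 𝓕 (gS h1 h2 hc : ℝ → ℂ) (n : ℝ) *
      fourier n ((x : ℝ) : UnitAddCircle) :=
    SchwartzMap.tsum_eq_tsum_fourier (gS h1 h2 hc) x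
  have h' : ∑' n : ℤ, (gS h1 h2 hc) (x + n) = ∑' t : ℤ, φ (c * (x + t)) := rfl
  rw [← h', h, ← tsum_mul_left]
  refine tsum_congr fun k => ?_
  rw [fourier_gS, fourier_coe_apply, mul_assoc]
  congr 2
  push_cast
  rw [div_one]

theorem fin_supp {φ : ℝ → ℂ} (h2 : HasCompactSupport φ) {y : ℝ} (hy : 0 < y) (H : ℤ → ℂ) :
    Summable (fun m : ℤ => H m * φ (m / y)) := by
  obtain ⟨R, hR⟩ := h2.isCompact.isBounded.subset_closedBall (0 : ℝ)
  have h0 : ∀ x : ℝ, R < |x| → φ x = 0 := by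
    intro x hx
    by_contra hne
    have := hR (subset_tsupport φ hne)
    rw [mem_closedBall_zero_iff, Real.norm_eq_abs] at this
    linarith
  refine summable_of_hasFiniteSupport ?_
  refine (Set.finite_Icc (-⌈R * y⌉) ⌈R * y⌉).subset ?_
  intro m hm
  have h3 : φ (m / y) ≠ 0 := fun h => hm (by show H m * φ (m / y) = 0; rw [h, mul_zero])
  have h4 : |(m : ℝ) / y| ≤ R := by
    by_contra hc
    exact h3 (h0 _ (not_le.1 hc))
  rw [abs_div, abs_of_pos hy, div_le_iff₀ hy] at h4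
  have h5 : |(m : ℝ)| ≤ (⌈R * y⌉ : ℝ) := h4.trans (Int.le_ceil _)
  have h6 : |m| ≤ ⌈R * y⌉ := by exact_mod_cast h5
  exact abs_le.1 h6

/-- splitting into residue classes -/
theorem split_per (Q : ℕ) [NeZero Q] (h : ℤ → ℂ) (hsum : Summable h) :
    ∑' m : ℤ, h m = ∑ r : Fin Q, ∑' t : ℤ, h (t * Q + (r : ℕ)) := by
  have e0 : ∀ p : Fin Q × ℤ, ((Equiv.prodComm (Fin Q) ℤ).trans (Int.divModEquiv Q).symm) p =
      p.2 * Q + (p.1 : ℕ) := by
    intro p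
    rfl
  have e3 : ∑' m : ℤ, h m = ∑' p : Fin Q × ℤ, h (p.2 * Q + (p.1 : ℕ)) := by
    rw [← ((Equiv.prodComm (Fin Q) ℤ).trans (Int.divModEquiv Q).symm).tsum_eq h]
    exact tsum_congr fun p => by rw [e0]
  have hsum2 : Summable (fun p : Fin Q × ℤ => h (p.2 * Q + (p.1 : ℕ))) := by
    have h1 := ((Equiv.prodComm (Fin Q) ℤ).trans (Int.divModEquiv Q).symm).summable_iff.2 hsum
    refine h1.congr fun p => ?_
    rw [Function.comp_apply, e0]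
  rw [e3, hsum2.tsum_prod, tsum_fintype]

/-- Poisson summation for a periodic function -/
theorem poissonPer {φ : ℝ → ℂ} (h1 : ContDiff ℝ ((⊤ : ℕ∞) : WithTop ℕ∞) φ)
    (h2 : HasCompactSupport φ) {y : ℝ} (hy : 0 < y) (Q : ℕ) (hQ : 0 < Q) (H : ℤ → ℂ)
    (hH : ∀ (m t : ℤ), H (m + Q * t) = H m) :
    ∑' m : ℤ, H m * φ (m / y) = ((y / Q : ℝ) : ℂ) * ∑' k : ℤ, Ph φ (k * y / Q) *
      ∑ r ∈ range Q, H (r : ℤ) * Complex.exp (2 * Real.pi * Complex.I * k * ((r : ℝ) / Q : ℝ)) := by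
  have : NeZero Q := ⟨hQ.ne'⟩
  have hQR : (0 : ℝ) < Q := by exact_mod_cast hQ
  have hc : 0 < (Q : ℝ) / y := by positivity
  have hsum := fin_supp h2 hy H
  rw [split_per Q (fun m : ℤ => H m * φ (m / y)) hsum]
  have e4 : ∀ r : Fin Q, ∑' t : ℤ, H (t * Q + (r : ℕ)) * φ (((t * Q + (r : ℕ) : ℤ) : ℝ) / y) =
      ((y / Q : ℝ) : ℂ) * ∑' k : ℤ, Ph φ (k * y / Q) *
        (H ((r : ℕ) : ℤ) * Complex.exp (2 * Real.pi * Complex.I * k * (((r : ℕ) : ℝ) / Q : ℝ))) := by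
    intro r
    have e5 : ∑' t : ℤ, H (t * Q + (r : ℕ)) * φ (((t * Q + (r : ℕ) : ℤ) : ℝ) / y) =
        H ((r : ℕ) : ℤ) * ∑' t : ℤ, φ ((Q : ℝ) / y * (((r : ℕ) : ℝ) / Q + t)) := by
      rw [← tsum_mul_left]
      refine tsum_congr fun t => ?_
      rw [show (t * Q + ((r : ℕ) : ℤ)) = ((r : ℕ) : ℤ) + Q * t by ring, hH]
      congr 2
      push_cast
      field_simp
    rw [e5, poisson1 h1 h2 hc, mul_left_comm, ← tsum_mul_left]
    have e6 : (1 / ((Q : ℝ) / y) : ℝ) = y / Q := by field_simp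
    rw [e6]
    congr 1
    refine tsum_congr fun k => ?_
    have e7 : (k : ℝ) / ((Q : ℝ) / y) = k * y / Q := by field_simp
    rw [e7]
    ring
  rw [Finset.sum_congr rfl fun r _ => e4 r, ← Finset.mul_sum]
  congr 1
  have hS : ∀ r ∈ (univ : Finset (Fin Q)), Summable (fun k : ℤ => Ph φ (k * y / Q) *
        (H ((r : ℕ) : ℤ) * Complex.exp (2 * Real.pi * Complex.I * k * (((r : ℕ) : ℝ) / Q : ℝ)))) := by
    intro r _
    refine Summable.of_norm_bounded (g := fun k : ℤ => ‖Ph φ (k * y / Q)‖ * ‖H ((r : ℕ) : ℤ)‖)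
      (Summable.mul_right _ ?_) (fun k => ?_)
    · refine (summable_gS h1 h2 hc).congr fun k => ?_
      have e7 : (k : ℝ) / ((Q : ℝ) / y) = k * y / Q := by field_simp
      rw [e7]
    · rw [norm_mul, norm_mul]
      have e8 : ‖Complex.exp (2 * Real.pi * Complex.I * k * (((r : ℕ) : ℝ) / Q : ℝ))‖ = 1 := by
        have : (2 * Real.pi * Complex.I * k * (((r : ℕ) : ℝ) / Q : ℝ) : ℂ) =
            ((2 * Real.pi * k * (((r : ℕ) : ℝ) / Q) : ℝ) : ℂ) * Complex.I := by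
          push_cast; ring
        rw [this, Complex.norm_exp_ofReal_mul_I]
      rw [e8, mul_one]
  rw [← Summable.tsum_finsetSum hS]
  refine tsum_congr fun k => ?_
  rw [← Finset.mul_sum]
  congr 1
  exact Fin.sum_univ_eq_sum_range (fun r => H (r : ℤ) *
    Complex.exp (2 * Real.pi * Complex.I * k * ((r : ℝ) / Q : ℝ))) Q

/-! ### The Gauss sum -/

/-- sum over a full period, Chinese remainder form -/
theorem sum_crtC (m n : ℕ) (hm : 0 < m) (hn : 0 < n) (h : m.Coprime n) (f : ℕ → ℂ)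
    (hf : ∀ r, f (r % (m * n)) = f r) :
    ∑ r ∈ range (m * n), f r = ∑ a ∈ range m, ∑ b ∈ range n, f (a * n + b * m) := by
  apply Complex.ext
  · have h1 := Pool.Agent.H987R2.RZ.sum_crt m n hm hn h (fun r => (f r).re)
      (fun r => by rw [hf])
    simp only [Complex.re_sum]
    exact h1
  · have h1 := Pool.Agent.H987R2.RZ.sum_crt m n hm hn h (fun r => (f r).im)
      (fun r => by rw [hf])
    simp only [Complex.im_sum]
    exact h1

/-- the sign of the Gauss sum -/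
def eps (κ : ℕ) : ℂ := if κ % 4 = 1 then 1 else Complex.I

theorem gauss (h : ℤ) (κ : ℕ) (hκ : Odd κ) (hs : Squarefree κ) :
    ∑ b ∈ range κ, (js (b : ℤ) κ : ℂ) *
      Complex.exp (2 * Real.pi * Complex.I * h * ((b : ℝ) / κ : ℝ)) =
      (js h κ : ℂ) * (Real.sqrt κ : ℂ) * eps κ := by
  have h1 := Pool.Agent.H268R2.RZHT.Gk_all h κ hκ hs
  rw [Pool.Agent.H987R2.RZ.Gk_eq] at h1
  have h2 : ∑ b ∈ range κ, (js (b : ℤ) κ : ℂ) *
      Complex.exp (2 * Real.pi * Complex.I * h * ((b : ℝ) / κ : ℝ)) =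
      (Pool.Agent.H987R2.RZ.Cs h κ : ℂ) + (Pool.Agent.H987R2.RZ.Sn h κ : ℂ) * Complex.I := by
    unfold Pool.Agent.H987R2.RZ.Cs Pool.Agent.H987R2.RZ.Sn
    rw [Complex.ofReal_sum, Complex.ofReal_sum, Finset.sum_mul, ← Finset.sum_add_distrib]
    refine Finset.sum_congr rfl fun b _ => ?_
    have h3 : (2 * Real.pi * Complex.I * h * ((b : ℝ) / κ : ℝ) : ℂ) =
        ((2 * Real.pi * (h : ℝ) * (b : ℝ) / (κ : ℝ) : ℝ) : ℂ) * Complex.I := by
      push_cast; ring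
    rw [h3, Complex.exp_mul_I, ← Complex.ofReal_cos, ← Complex.ofReal_sin]
    push_cast
    ring
  rw [h2]
  unfold eps
  rcases Nat.odd_mod_four_iff.1 (Nat.odd_iff.1 hκ) with h4 | h4
  · rw [Pool.Agent.H987R2.RZ.Sn_zero h κ h4] at h1 ⊢
    rw [add_zero] at h1
    rw [if_pos h4, h1]
    push_cast
    ring
  · rw [Pool.Agent.H987R2.RZ.Cs_zero h κ h4] at h1 ⊢
    rw [zero_add] at h1
    rw [if_neg (by omega), h1]
    push_cast
    ring

/-- extension of `ψ` to the integers -/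
def fE (ψ : ℕ → ℂ) (r : ℤ) : ℂ := if Odd r then ψ (r % 8).toNat else 0

theorem psi_mod (ψ : ℕ → ℂ) (hψ8 : ∀ m, ψ (m + 8) = ψ m) (m : ℕ) : ψ (m % 8) = ψ m := by
  have h1 : ∀ t m, ψ (m + 8 * t) = ψ m := by
    intro t
    induction t with
    | zero => intro m; rfl
    | succ t ih =>
      intro m
      rw [show m + 8 * (t + 1) = m + 8 * t + 8 by ring, hψ8, ih]
  conv_rhs => rw [← Nat.mod_add_div m 8]
  rw [h1]

theorem fE_nat (ψ : ℕ → ℂ) (hψ8 : ∀ m, ψ (m + 8) = ψ m) (m : ℕ) :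
    fE ψ (m : ℤ) = if Odd m then ψ m else 0 := by
  unfold fE
  have h1 : ((m : ℤ) % 8).toNat = m % 8 := by omega
  rw [h1, psi_mod ψ hψ8]
  simp only [Int.odd_coe_nat]

theorem fE_add (ψ : ℕ → ℂ) (r t : ℤ) : fE ψ (r + 8 * t) = fE ψ r := by
  unfold fE
  have h1 : Odd (r + 8 * t) ↔ Odd r := by
    rw [Int.odd_iff, Int.odd_iff]
    omega
  rw [Int.add_mul_emod_self_left]
  simp only [h1]

theorem fE_norm (ψ : ℕ → ℂ) (hψ : ∀ m, ‖ψ m‖ ≤ 1) (r : ℤ) : ‖fE ψ r‖ ≤ 1 := by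
  unfold fE
  split_ifs
  · exact hψ _
  · simp

/-- the coefficient -/
def gam (ψ : ℕ → ℂ) (h : ℤ) (κ : ℕ) : ℂ :=
  (1 / 8) * ((ZMod.χ₈ (κ : ZMod 8) : ℤ) : ℂ) * eps κ *
    ∑ a ∈ range 8, fE ψ ((a * κ : ℕ) : ℤ) *
      Complex.exp (2 * Real.pi * Complex.I * h * ((a : ℝ) / 8 : ℝ))

theorem norm_e (x y : ℝ) : ‖Complex.exp (2 * Real.pi * Complex.I * x * y)‖ = 1 := by
  have : (2 * Real.pi * Complex.I * x * y : ℂ) =
      ((2 * Real.pi * x * y : ℝ) : ℂ) * Complex.I := by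
    push_cast; ring
  rw [this, Complex.norm_exp_ofReal_mul_I]

theorem gam_norm (ψ : ℕ → ℂ) (hψ : ∀ m, ‖ψ m‖ ≤ 1) (h : ℤ) (κ : ℕ) : ‖gam ψ h κ‖ ≤ 1 := by
  unfold gam
  have h1 : ‖((ZMod.χ₈ (κ : ZMod 8) : ℤ) : ℂ)‖ ≤ 1 := by
    generalize (κ : ZMod 8) = z
    revert z
    have h3 : ∀ z : ZMod 8, |(ZMod.χ₈ z : ℤ)| ≤ 1 := by decide
    intro z
    rw [Complex.norm_intCast]
    exact_mod_cast h3 z
  have h2 : ‖eps κ‖ = 1 := by
    unfold eps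
    split_ifs <;> simp
  have h3 : ‖∑ a ∈ range 8, fE ψ ((a * κ : ℕ) : ℤ) *
      Complex.exp (2 * Real.pi * Complex.I * h * ((a : ℝ) / 8 : ℝ))‖ ≤ 8 := by
    refine (norm_sum_le _ _).trans ?_
    have h4 : ∀ a ∈ range 8, ‖fE ψ ((a * κ : ℕ) : ℤ) *
        Complex.exp (2 * Real.pi * Complex.I * h * ((a : ℝ) / 8 : ℝ))‖ ≤ 1 := by
      intro a _
      rw [norm_mul]
      have := norm_e (h : ℝ) ((a : ℝ) / 8)
      rw [Complex.ofReal_intCast] at this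
      rw [this, mul_one]
      exact fE_norm ψ hψ _
    refine (Finset.sum_le_sum h4).trans ?_
    simp
  rw [norm_mul, norm_mul, norm_mul, h2]
  have h5 : ‖(1 / 8 : ℂ)‖ = 1 / 8 := by simp
  rw [h5, mul_one]
  calc 1 / 8 * ‖((ZMod.χ₈ (κ : ZMod 8) : ℤ) : ℂ)‖ * ‖∑ a ∈ range 8, fE ψ ((a * κ : ℕ) : ℤ) *
      Complex.exp (2 * Real.pi * Complex.I * h * ((a : ℝ) / 8 : ℝ))‖ ≤ 1 / 8 * 1 * 8 := by
        gcongr
    _ = 1 := by norm_num

theorem gam_h (ψ : ℕ → ℂ) (h : ℤ) (κ : ℕ) : gam ψ (h + 8) κ = gam ψ h κ := by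
  unfold gam
  congr 1
  refine Finset.sum_congr rfl fun a _ => ?_
  congr 1
  have h1 : (2 * Real.pi * Complex.I * ((h + 8 : ℤ) : ℂ) * ((a : ℝ) / 8 : ℝ) : ℂ) =
      2 * Real.pi * Complex.I * (h : ℂ) * ((a : ℝ) / 8 : ℝ) + ((a : ℕ) : ℂ) * (2 * Real.pi * Complex.I) := by
    push_cast
    ring
  rw [h1, Complex.exp_add, Complex.exp_nat_mul_two_pi_mul_I, mul_one]

theorem gam_k (ψ : ℕ → ℂ) (h : ℤ) (κ : ℕ) : gam ψ h (κ + 8) = gam ψ h κ := by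
  unfold gam
  have h1 : (((κ + 8 : ℕ)) : ZMod 8) = (κ : ZMod 8) := by
    push_cast
    have : (8 : ZMod 8) = 0 := by decide
    rw [this, add_zero]
  have h2 : eps (κ + 8) = eps κ := by
    unfold eps
    rw [show (κ + 8) % 4 = κ % 4 by omega]
  rw [h1, h2]
  congr 1
  refine Finset.sum_congr rfl fun a _ => ?_
  have h3 : ((a * (κ + 8) : ℕ) : ℤ) = ((a * κ : ℕ) : ℤ) + 8 * a := by
    push_cast; ring
  rw [h3, fE_add]

theorem js_eight (κ : ℕ) (hκ : Odd κ) : (js 8 κ : ℂ) = ((ZMod.χ₈ (κ : ZMod 8) : ℤ) : ℂ) := by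
  unfold js
  have h1 : jacobiSym 8 κ = jacobiSym 2 κ ^ 2 * jacobiSym 2 κ := by
    rw [← jacobiSym.pow_left, ← jacobiSym.mul_left]
    norm_num
  have hc : Int.gcd 2 κ = 1 := by
    have h2 : Nat.Coprime 2 κ := (Nat.coprime_two_left).2 hκ
    simpa [Int.gcd] using h2
  rw [h1, jacobiSym.sq_one hc, one_mul, jacobiSym.at_two hκ]
  push_cast
  rfl

theorem js_add_mul' (κ : ℕ) (r t : ℤ) : js (r + κ * t) κ = js r κ := by
  unfold js
  congr 1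
  rw [jacobiSym.mod_left (r + κ * t) κ, jacobiSym.mod_left r κ, Int.add_mul_emod_self_left]

/-- the full sum -/
theorem full_sum (ψ : ℕ → ℂ) (k : ℤ) (κ : ℕ) (hκ : Odd κ) (hs : Squarefree κ) :
    ∑ r ∈ range (8 * κ), (fE ψ (r : ℤ) * (js (r : ℤ) κ : ℂ)) *
      Complex.exp (2 * Real.pi * Complex.I * k * ((r : ℝ) / (8 * κ : ℕ) : ℝ)) =
      8 * gam ψ k κ * (js k κ : ℂ) * (Real.sqrt κ : ℂ) := by
  have hκ0 : 0 < κ := hκ.pos
  have hκR : (κ : ℂ) ≠ 0 := by exact_mod_cast hκ0.ne'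
  have hcop : Nat.Coprime 8 κ := by
    have h2 : Nat.Coprime 2 κ := (Nat.coprime_two_left).2 hκ
    exact h2.pow_left 3
  rw [sum_crtC 8 κ (by norm_num) hκ0 hcop (fun r => (fE ψ (r : ℤ) * (js (r : ℤ) κ : ℂ)) *
      Complex.exp (2 * Real.pi * Complex.I * k * ((r : ℝ) / (8 * κ : ℕ) : ℝ)))]
  · have h1 : ∀ a ∈ range 8, ∀ b ∈ range κ,
        (fE ψ ((a * κ + b * 8 : ℕ) : ℤ) * (js ((a * κ + b * 8 : ℕ) : ℤ) κ : ℂ)) *
        Complex.exp (2 * Real.pi * Complex.I * k *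
          (((a * κ + b * 8 : ℕ) : ℝ) / (8 * κ : ℕ) : ℝ)) =
        ((ZMod.χ₈ (κ : ZMod 8) : ℤ) : ℂ) * ((fE ψ ((a * κ : ℕ) : ℤ) *
          Complex.exp (2 * Real.pi * Complex.I * k * ((a : ℝ) / 8 : ℝ))) *
        ((js (b : ℤ) κ : ℂ) * Complex.exp (2 * Real.pi * Complex.I * k * ((b : ℝ) / κ : ℝ)))) := by
      intro a _ b _
      have e1 : ((a * κ + b * 8 : ℕ) : ℤ) = ((a * κ : ℕ) : ℤ) + 8 * b := by
        push_cast; ring
      have e2 : js ((a * κ + b * 8 : ℕ) : ℤ) κ = js 8 κ * js (b : ℤ) κ := by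
        have e3 : ((a * κ + b * 8 : ℕ) : ℤ) = 8 * b + κ * a := by
          push_cast; ring
        rw [e3, js_add_mul']
        unfold js
        rw [jacobiSym.mul_left]
        push_cast
        rfl
      have e4 : (2 * Real.pi * Complex.I * k *
          (((a * κ + b * 8 : ℕ) : ℝ) / (8 * κ : ℕ) : ℝ) : ℂ) =
          2 * Real.pi * Complex.I * k * ((a : ℝ) / 8 : ℝ) +
          2 * Real.pi * Complex.I * k * ((b : ℝ) / κ : ℝ) := by
        push_cast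
        field_simp
      rw [e2, e1, fE_add, e4, Complex.exp_add]
      push_cast
      rw [js_eight κ hκ]
      ring
    rw [Finset.sum_congr rfl fun a ha => Finset.sum_congr rfl fun b hb => h1 a ha b hb]
    have h2 : ∀ u v : ℕ → ℂ, ∑ a ∈ range 8, ∑ b ∈ range κ,
        ((ZMod.χ₈ (κ : ZMod 8) : ℤ) : ℂ) * (u a * v b) =
        ((ZMod.χ₈ (κ : ZMod 8) : ℤ) : ℂ) * ((∑ a ∈ range 8, u a) * (∑ b ∈ range κ, v b)) := by
      intro u v
      rw [Finset.sum_mul_sum, Finset.mul_sum]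
      refine Finset.sum_congr rfl fun a _ => ?_
      rw [Finset.mul_sum]
    rw [h2 (fun a => fE ψ ((a * κ : ℕ) : ℤ) *
          Complex.exp (2 * Real.pi * Complex.I * k * ((a : ℝ) / 8 : ℝ)))
      (fun b => (js (b : ℤ) κ : ℂ) * Complex.exp (2 * Real.pi * Complex.I * k * ((b : ℝ) / κ : ℝ))),
      gauss k κ hκ hs]
    unfold gam
    ring
  · intro r
    obtain ⟨t, e5⟩ : ∃ t : ℕ, r = r % (8 * κ) + 8 * κ * t :=
      ⟨r / (8 * κ), (Nat.mod_add_div r (8 * κ)).symm⟩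
    have e6 : fE ψ ((r : ℕ) : ℤ) = fE ψ ((r % (8 * κ) : ℕ) : ℤ) := by
      have : ((r : ℕ) : ℤ) = ((r % (8 * κ) : ℕ) : ℤ) + 8 * ((κ * t : ℕ) : ℤ) := by
        conv_lhs => rw [e5]
        push_cast
        ring
      rw [this, fE_add]
    have e7 : js ((r : ℕ) : ℤ) κ = js ((r % (8 * κ) : ℕ) : ℤ) κ := by
      have : ((r : ℕ) : ℤ) = ((r % (8 * κ) : ℕ) : ℤ) + κ * ((8 * t : ℕ) : ℤ) := by
        conv_lhs => rw [e5]
        push_cast
        ring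
      rw [this, js_add_mul']
    have e8 : Complex.exp (2 * Real.pi * Complex.I * k * ((r : ℝ) / (8 * κ : ℕ) : ℝ)) =
        Complex.exp (2 * Real.pi * Complex.I * k * (((r % (8 * κ) : ℕ) : ℝ) / (8 * κ : ℕ) : ℝ)) := by
      have e9 : (2 * Real.pi * Complex.I * k * ((r : ℝ) / (8 * κ : ℕ) : ℝ) : ℂ) =
          2 * Real.pi * Complex.I * k * (((r % (8 * κ) : ℕ) : ℝ) / (8 * κ : ℕ) : ℝ) +
          ((k * (t : ℤ) : ℤ) : ℂ) * (2 * Real.pi * Complex.I) := by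
        have : (r : ℝ) = ((r % (8 * κ) : ℕ) : ℝ) + ((8 * κ : ℕ) : ℝ) * (t : ℝ) := by
          exact_mod_cast e5
        conv_lhs => rw [this]
        push_cast
        field_simp
      rw [e9, Complex.exp_add, Complex.exp_int_mul_two_pi_mul_I, mul_one]
    show (fE ψ ((r % (8 * κ) : ℕ) : ℤ) * (js ((r % (8 * κ) : ℕ) : ℤ) κ : ℂ)) *
      Complex.exp (2 * Real.pi * Complex.I * k * (((r % (8 * κ) : ℕ) : ℝ) / (8 * κ : ℕ) : ℝ)) = _
    rw [← e6, ← e7, ← e8]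

/-- Poisson summation for `m ↦ ψ(m) (m|κ)` -/
theorem PO (ψ : ℕ → ℂ) (hψ : ∀ m, ‖ψ m‖ ≤ 1) (hψ8 : ∀ m, ψ (m + 8) = ψ m) :
    ∃ γ : ℤ → ℕ → ℂ, (∀ h κ, ‖γ h κ‖ ≤ 1) ∧ (∀ h κ, γ (h + 8) κ = γ h κ) ∧
      (∀ h κ, γ h (κ + 8) = γ h κ) ∧
    ∀ (κ : ℕ), Odd κ → Squarefree κ → 1 < κ → ∀ (φ : ℝ → ℂ), ContDiff ℝ ((⊤ : ℕ∞) : WithTop ℕ∞) φ →
      HasCompactSupport φ → tsupport φ ⊆ Set.Ioi 0 → ∀ y : ℝ, 0 < y →
      (∑' m : ℕ, if Odd m then ψ m * (js m κ : ℂ) * φ (m / y) else 0) =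
        ((y / Real.sqrt κ : ℝ) : ℂ) * ∑' h : ℤ, (js h κ : ℂ) * γ h κ *
          ∫ u : ℝ, φ u * Complex.exp (-(2 * Real.pi * Complex.I * (h * y / (8 * κ) : ℝ) * u)) := by
  refine ⟨gam ψ, gam_norm ψ hψ, gam_h ψ, gam_k ψ, ?_⟩
  intro κ hκ hs _ φ h1 h2 h3 y hy
  have hκ0 : 0 < κ := hκ.pos
  have hκR : (0 : ℝ) < κ := by exact_mod_cast hκ0
  have e1 : (∑' m : ℕ, if Odd m then ψ m * (js m κ : ℂ) * φ (m / y) else 0) =
      ∑' m : ℤ, (fE ψ m * (js m κ : ℂ)) * φ (m / y) := by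
    rw [← (Nat.cast_injective (R := ℤ)).tsum_eq]
    · refine tsum_congr fun m => ?_
      rw [fE_nat ψ hψ8]
      split_ifs
      · rfl
      · rw [zero_mul, zero_mul]
    · intro d hd
      by_contra hcon
      apply hd
      have hneg : d < 0 := by
        by_contra h
        exact hcon ⟨d.toNat, by simp [not_lt.1 h]⟩
      have : φ ((d : ℝ) / y) = 0 := by
        by_contra hne
        have h4 : (d : ℝ) / y ∈ Set.Ioi (0 : ℝ) := h3 (subset_tsupport φ hne)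
        have h5 : (d : ℝ) < 0 := by exact_mod_cast hneg
        have h6 := div_neg_of_neg_of_pos h5 hy
        exact absurd h4 (not_lt.2 h6.le)
      show (fE ψ d * (js d κ : ℂ)) * φ (d / y) = 0
      rw [this, mul_zero]
  rw [e1, poissonPer h1 h2 hy (8 * κ) (by omega) (fun m => fE ψ m * (js m κ : ℂ))]
  · have e2 : ∀ k : ℤ, Ph φ (k * y / ((8 * κ : ℕ) : ℝ)) *
        ∑ r ∈ range (8 * κ), (fE ψ (r : ℤ) * (js (r : ℤ) κ : ℂ)) *
          Complex.exp (2 * Real.pi * Complex.I * k * ((r : ℝ) / (8 * κ : ℕ) : ℝ)) =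
        (8 * (Real.sqrt κ : ℂ)) * ((js k κ : ℂ) * gam ψ k κ *
          ∫ u : ℝ, φ u * Complex.exp (-(2 * Real.pi * Complex.I * (k * y / (8 * κ) : ℝ) * u))) := by
      intro k
      rw [full_sum ψ k κ hκ hs]
      have e3 : Ph φ (k * y / ((8 * κ : ℕ) : ℝ)) =
          ∫ u : ℝ, φ u * Complex.exp (-(2 * Real.pi * Complex.I * (k * y / (8 * κ) : ℝ) * u)) := by
        unfold Ph
        push_cast
        rfl
      rw [e3]
      ring
    rw [tsum_congr e2, tsum_mul_left, ← mul_assoc]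
    congr 1
    have hsq : (Real.sqrt κ) * (Real.sqrt κ) = κ := Real.mul_self_sqrt hκR.le
    have hs0 : Real.sqrt κ ≠ 0 := (Real.sqrt_pos.2 hκR).ne'
    have e4 : y / ((8 * κ : ℕ) : ℝ) * (8 * Real.sqrt κ) = y / Real.sqrt κ := by
      push_cast
      rw [div_mul_eq_mul_div, div_eq_div_iff (by positivity) hs0]
      calc y * (8 * Real.sqrt κ) * Real.sqrt κ = 8 * y * (Real.sqrt κ * Real.sqrt κ) := by ring
        _ = y * (8 * κ) := by rw [hsq]; ring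
    rw [← e4]
    push_cast
    ring
  · intro m t
    have e5 : m + ((8 * κ : ℕ) : ℤ) * t = m + 8 * (κ * t) := by push_cast; ring
    have e6 : m + ((8 * κ : ℕ) : ℤ) * t = m + κ * (8 * t) := by push_cast; ring
    show fE ψ (m + ((8 * κ : ℕ) : ℤ) * t) * (js (m + ((8 * κ : ℕ) : ℤ) * t) κ : ℂ) = _
    rw [e6, js_add_mul', ← e6, e5, fE_add]

end

end Pool.Agent.H375R3.RZ5
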